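import Pool.Agent.H69.OctaPairs

set_option autoImplicit false

namespace Pool.Agent.Results.MP_6e7851_co.OctahedronPairs

open Pool.Agent.H69.Unfold

/-- The polygon `P` folds to the surface `S` (scaled by some factor): for some triangulation `N`
of `P` there is a folding of `N` to `S` whose boundary gluing is planar and in which different
edges on the same side of the same face start at different points. -/
def FoldsTo {M n : ℕ} (P : ZMod M → ℂ) (S : NGonSurface n) : Prop :=
  ∃ (N : Net P) (φ : Folding N S), φ.NonCrossing ∧ φ.SideTiled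

/-- The regular octahedron has no common unfolding with the regular tetrahedron, the cube or the
regular dodecahedron: a simple polygon that folds to the regular octahedron folds to none of
them. -/
theorem result {M : ℕ} [NeZero M] (P : ZMod M → ℂ) (hP : IsSimplePolygon P)
    (h : FoldsTo P octa) : ¬ FoldsTo P tetra ∧ ¬ FoldsTo P cube ∧ ¬ FoldsTo P dodeca := by
  obtain ⟨N₂, φ₂, h₂, -⟩ := h
  refine ⟨?_, ?_, ?_⟩
  · rintro ⟨N₁, φ₁, h₁, h₁'⟩
    exact no_tetra_octa hP N₁ N₂ φ₁ h₁ h₁' φ₂ h₂
  · rintro ⟨N₁, φ₁, h₁, h₁'⟩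
    exact no_cube_octa hP N₁ N₂ φ₁ h₁ h₁' φ₂ h₂
  · rintro ⟨N₁, φ₁, h₁, h₁'⟩
    exact no_dodeca_octa hP N₁ N₂ φ₁ h₁ h₁' φ₂ h₂

end Pool.Agent.Results.MP_6e7851_co.OctahedronPairs
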