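import Pool.Agent.H69.UnfoldMain

set_option autoImplicit false

namespace Pool.Agent.Results.MP_6e7851_co.TwoSlideDirections

open Pool.Agent.H69.Unfold

/-- `(n, f)`: the `f` faces of the Platonic solid are regular `n`-gons (tetrahedron, cube,
octahedron, dodecahedron, icosahedron). -/
def IsPlatonic (n f : ℕ) : Prop :=
  (n = 3 ∧ f = 4) ∨ (n = 4 ∧ f = 6) ∨ (n = 3 ∧ f = 8) ∨ (n = 5 ∧ f = 12) ∨ (n = 3 ∧ f = 20)

open Classical in
/-- The field of comparison for a pair of solids with `n₁`-gonal and `n₂`-gonal faces: the field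
`ℚ(ζ 3)` if both have the same kind of faces, the field generated by all roots of unity
otherwise. -/
noncomputable def dirField (n₁ n₂ : ℕ) : Subfield ℂ :=
  if n₁ = n₂ then Subfield.closure {ζ 3} else Subfield.closure {z | ∃ N : ℕ, 0 < N ∧ z ^ N = 1}

lemma IsPlatonic.three_le {n f : ℕ} (h : IsPlatonic n f) : 3 ≤ n := by
  rcases h with ⟨rfl, rfl⟩ | ⟨rfl, rfl⟩ | ⟨rfl, rfl⟩ | ⟨rfl, rfl⟩ | ⟨rfl, rfl⟩ <;> norm_num

/-- Let a closed polygon `P` be triangulated twice (`N₁`, `N₂`), and folded to the surfaces `S₁`,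
`S₂` of two Platonic solids of different types (or to any other surfaces made of the same numbers
of faces of the same kinds).

(1) If `K` is a subfield of `ℂ`, closed under conjugation, with `ζ n₁, ζ n₂ ∈ K`, and all sides
of `P` on which the cuts of the two foldings differ have directions in `K · ℝ · δ`, then
`f₁ A(n₁) = f₂ A(n₂) |κ|²` for some `κ ∈ K`, where `A(n)` is the area of the unit regular
`n`-gon.

(2) For every `δ ≠ 0` there is a side of `P` on which the cuts of the two foldings differ and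
whose direction is not in `dirField n₁ n₂ · ℝ · δ`. -/
theorem result {M : ℕ} [NeZero M] (P : ZMod M → ℂ) (N₁ N₂ : Net P)
    {n₁ f₁ n₂ f₂ : ℕ} [NeZero n₁] [NeZero n₂] (h₁ : IsPlatonic n₁ f₁) (h₂ : IsPlatonic n₂ f₂)
    (hne : (n₁, f₁) ≠ (n₂, f₂)) (S₁ : NGonSurface n₁) (S₂ : NGonSurface n₂)
    (hf₁ : Fintype.card S₁.Face = f₁) (hf₂ : Fintype.card S₂.Face = f₂)
    (φ₁ : Folding N₁ S₁) (φ₂ : Folding N₂ S₂) :
    (∀ K : Subfield ℂ, (∀ κ ∈ K, starRingEnd ℂ κ ∈ K) → ζ n₁ ∈ K → ζ n₂ ∈ K →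
      ∀ δ : ℂ, δ ≠ 0 →
      (∀ k, SameCuts N₁ N₂ k ∨ ∃ κ ∈ K, ∃ r : ℝ, P (k + 1) - P k = κ * (r * δ)) →
      ∃ κ ∈ K, f₁ * area2 n₁ = f₂ * area2 n₂ * ‖κ‖ ^ 2) ∧
    (∀ δ : ℂ, δ ≠ 0 → ∃ k, ¬ SameCuts N₁ N₂ k ∧
      ∀ κ ∈ dirField n₁ n₂, ∀ r : ℝ, P (k + 1) - P k ≠ κ * (r * δ)) := by
  have hn₁ := h₁.three_le
  have hn₂ := h₂.three_le
  constructor
  · intro K hconj hK₁ hK₂ δ hδ hside
    obtain ⟨κ₁, hκ₁, κ₂, hκ₂, h0, h⟩ :=
      area_relation N₁ N₂ hn₁ hn₂ φ₁ φ₂ K hconj hK₁ hK₂ δ hδ hside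
    rw [hf₁, hf₂] at h
    refine ⟨κ₂ / κ₁, K.div_mem hκ₂ hκ₁, ?_⟩
    have h3 : ‖κ₁‖ ≠ 0 := norm_ne_zero_iff.mpr h0
    rw [norm_div]
    field_simp
    linarith
  · intro δ hδ
    by_contra hcon
    push Not at hcon
    have hside : ∀ k, SameCuts N₁ N₂ k ∨
        ∃ κ ∈ dirField n₁ n₂, ∃ r : ℝ, P (k + 1) - P k = κ * (r * δ) := by
      intro k
      by_cases hk : SameCuts N₁ N₂ k
      · exact Or.inl hk
      · exact Or.inr (hcon k hk)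
    by_cases hn : n₁ = n₂
    · have hd : dirField n₁ n₂ = eisField := by
        unfold dirField eisField
        rw [if_pos hn]
      rw [hd] at hside
      subst hn
      have hn3 : n₁ = 3 := by
        rcases h₁ with ⟨h, hf⟩ | ⟨h, hf⟩ | ⟨h, hf⟩ | ⟨h, hf⟩ | ⟨h, hf⟩ <;>
        rcases h₂ with ⟨h', hf'⟩ | ⟨h', hf'⟩ | ⟨h', hf'⟩ | ⟨h', hf'⟩ | ⟨h', hf'⟩ <;>
        first | exact h | (exfalso; omega) | (exfalso; apply hne; rw [hf, hf'])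
      subst hn3
      have hz : ζ 3 ∈ eisField := Subfield.subset_closure (Set.mem_singleton _)
      obtain ⟨κ₁, hκ₁, κ₂, hκ₂, h0, h⟩ :=
        area_relation N₁ N₂ hn₁ hn₂ φ₁ φ₂ eisField eisField_conj hz hz δ hδ hside
      rw [hf₁, hf₂] at h
      have hA := area2_pos hn₁
      have h' : (f₁ : ℝ) * ‖κ₁‖ ^ 2 = f₂ * ‖κ₂‖ ^ 2 := by
        apply mul_left_cancel₀ hA.ne'
        linarith
      refine no_relation_triangle f₁ f₂ ?_ ?_ ?_ κ₁ κ₂ hκ₁ hκ₂ h0 h'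
      · rcases h₁ with ⟨h, hf⟩ | ⟨h, hf⟩ | ⟨h, hf⟩ | ⟨h, hf⟩ | ⟨h, hf⟩ <;> omega
      · rcases h₂ with ⟨h, hf⟩ | ⟨h, hf⟩ | ⟨h, hf⟩ | ⟨h, hf⟩ | ⟨h, hf⟩ <;> omega
      · intro hff
        apply hne
        rw [hff]
    · have hd : dirField n₁ n₂ = rootField := by
        unfold dirField rootField
        rw [if_neg hn]
      rw [hd] at hside
      have hco : Nat.Coprime n₁ n₂ := by
        rcases h₁ with ⟨rfl, hf⟩ | ⟨rfl, hf⟩ | ⟨rfl, hf⟩ | ⟨rfl, hf⟩ | ⟨rfl, hf⟩ <;>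
        rcases h₂ with ⟨rfl, hf'⟩ | ⟨rfl, hf'⟩ | ⟨rfl, hf'⟩ | ⟨rfl, hf'⟩ | ⟨rfl, hf'⟩ <;>
        first | (exfalso; exact hn rfl) | norm_num
      obtain ⟨κ₁, hκ₁, κ₂, hκ₂, h0, h⟩ :=
        area_relation N₁ N₂ hn₁ hn₂ φ₁ φ₂ rootField rootField_conj
          (ζ_mem_rootField (by omega)) (ζ_mem_rootField (by omega)) δ hδ hside
      rw [hf₁, hf₂] at h
      have hf₁pos : 0 < f₁ := by
        rcases h₁ with ⟨h, hf⟩ | ⟨h, hf⟩ | ⟨h, hf⟩ | ⟨h, hf⟩ | ⟨h, hf⟩ <;> omega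
      exact no_relation_coprime hn₁ hn₂ hco f₁ f₂ hf₁pos κ₁ κ₂ hκ₁ hκ₂ h0 h

end Pool.Agent.Results.MP_6e7851_co.TwoSlideDirections
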